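import Pool.Agent.Helper14.TR.Defs

/-!
Block TR-9d (project TR for MP_b8862a_ag): a subgroup of finite index of `Γ` lies in the largest possible group.
`χ_e g = det (g e + (1 - e))` is `± z ^ rank e` for every block `e`; two elements with the same signs differ by an
element of the subgroup, and there are finitely many blocks.
-/

set_option linter.unusedSectionVars false

open Matrix

namespace MH

variable {n : Type*} [Fintype n] [DecidableEq n]
variable {m : ℤ} {Q : Matrix n n ℚ} {S : Finset ℤ} {P : ℤ → Matrix n n ℂ} {Γ : Subgroup (GL n ℂ)}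

private lemma detQ53 (H : IsHS m Q S P) : (toC Q).det ≠ 0 := by
  obtain ⟨B, Bi, Qi, _, _, h3, _, _⟩ := H.exists_basis
  intro h0
  have := congrArg Matrix.det h3
  rw [Matrix.det_mul, h0, zero_mul, Matrix.det_one] at this
  exact zero_ne_one this

/-- rank factorisation of an idempotent -/
private lemma fac53 {e : Matrix n n ℂ} (hee : e * e = e) :
    ∃ (W : Matrix n (Fin e.rank) ℂ) (V : Matrix (Fin e.rank) n ℂ), W * V = e ∧ V * W = 1 := by
  obtain ⟨f, hf⟩ : ∃ f : (n → ℂ) →ₗ[ℂ] (n → ℂ), f = Matrix.toLin' e := ⟨_, rfl⟩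
  have hff : ∀ v, f (f v) = f v := by
    intro v
    rw [hf, Matrix.toLin'_apply, Matrix.toLin'_apply, Matrix.mulVec_mulVec, hee]
  have hr : Module.finrank ℂ (LinearMap.range f) = e.rank := by
    rw [hf]
    rfl
  let b := Module.finBasisOfFinrankEq ℂ (LinearMap.range f) hr
  let w : (Fin e.rank → ℂ) →ₗ[ℂ] (n → ℂ) := (LinearMap.range f).subtype ∘ₗ b.equivFun.symm.toLinearMap
  let v : (n → ℂ) →ₗ[ℂ] (Fin e.rank → ℂ) := b.equivFun.toLinearMap ∘ₗ f.rangeRestrict
  have h1 : w ∘ₗ v = f := by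
    apply LinearMap.ext
    intro x
    change ((b.equivFun.symm (b.equivFun (f.rangeRestrict x)) : LinearMap.range f) : n → ℂ) = f x
    rw [LinearEquiv.symm_apply_apply]
    rfl
  have h2 : v ∘ₗ w = LinearMap.id := by
    apply LinearMap.ext
    intro x
    change b.equivFun (f.rangeRestrict ((b.equivFun.symm x : LinearMap.range f) : n → ℂ)) = x
    have h3 : f.rangeRestrict ((b.equivFun.symm x : LinearMap.range f) : n → ℂ) = b.equivFun.symm x := by
      apply Subtype.ext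
      obtain ⟨y, hy⟩ := (b.equivFun.symm x).2
      change f ((b.equivFun.symm x : LinearMap.range f) : n → ℂ) = _
      rw [← hy, hff]
    rw [h3, LinearEquiv.apply_symm_apply]
  refine ⟨LinearMap.toMatrix' w, LinearMap.toMatrix' v, ?_, ?_⟩
  · rw [← LinearMap.toMatrix'_comp, h1, hf, LinearMap.toMatrix'_toLin']
  · rw [← LinearMap.toMatrix'_comp, h2, LinearMap.toMatrix'_id]

private lemma det_idem53 {e : Matrix n n ℂ} (hee : e * e = e) (c : ℂ) :
    (c • e + (1 - e)).det = c ^ e.rank := by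
  obtain ⟨W, V, h1, h2⟩ := fac53 hee
  have h3 : c • e + (1 - e) = 1 + W * ((c - 1) • V) := by
    rw [Matrix.mul_smul, h1, sub_smul, one_smul]
    abel
  rw [h3, Matrix.det_one_add_mul_comm, Matrix.smul_mul, h2]
  have h4 : (1 : Matrix (Fin e.rank) (Fin e.rank) ℂ) + (c - 1) • 1 = c • 1 := by
    rw [sub_smul, one_smul]
    abel
  rw [h4, Matrix.det_smul, Matrix.det_one, mul_one, Fintype.card_fin]

private lemma adj53 (hSA : SelfAdj Q P) {x : Matrix n n ℂ} (hx : x ∈ EC P) : xᵀ * toC Q = toC Q * x := by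
  unfold EC at hx
  induction hx using Submodule.span_induction with
  | mem x hx =>
    obtain ⟨A, hA, rfl⟩ := hx
    rw [← toC_transpose, ← toC_mul, hSA A hA, toC_mul]
  | zero => simp
  | add x y _ _ hx hy => rw [Matrix.transpose_add, add_mul, mul_add, hx, hy]
  | smul c x _ hx => rw [Matrix.transpose_smul, smul_mul_assoc, mul_smul_comm, hx]

private lemma comm53 (H : IsHS m Q S P) (hSA : SelfAdj Q P) {x y : Matrix n n ℂ} (hx : x ∈ EC P) (hy : y ∈ EC P) :
    x * y = y * x := by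
  have key : ∀ A B : Matrix n n ℚ, (∀ p, toC A * P p = P p * toC A) → (∀ p, toC B * P p = P p * toC B) →
      toC A * toC B = toC B * toC A := by
    intro A B hA hB
    have hAB : ∀ p, toC (A * B) * P p = P p * toC (A * B) := by
      intro p
      rw [toC_mul, mul_assoc, hB, ← mul_assoc, hA, mul_assoc]
    have h1 := hSA (A * B) hAB
    rw [Matrix.transpose_mul, mul_assoc, hSA A hA, ← mul_assoc, hSA B hB, mul_assoc] at h1
    have h2 : toC Q * (toC B * toC A) = toC Q * (toC A * toC B) := by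
      rw [← toC_mul, ← toC_mul, ← toC_mul, ← toC_mul, h1]
    have h3 : IsUnit (toC Q).det := isUnit_iff_ne_zero.2 (detQ53 H)
    have h4 := congrArg (fun X => (toC Q)⁻¹ * X) h2
    simp only [← mul_assoc] at h4
    rw [Matrix.nonsing_inv_mul _ h3, one_mul, one_mul] at h4
    exact h4.symm
  unfold EC at hx hy
  induction hx using Submodule.span_induction with
  | mem x hx =>
    obtain ⟨A, hA, rfl⟩ := hx
    induction hy using Submodule.span_induction with
    | mem y hy =>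
      obtain ⟨B, hB, rfl⟩ := hy
      exact key A B hA hB
    | zero => simp
    | add y z _ _ hy hz => rw [add_mul, mul_add, hy, hz]
    | smul c y _ hy => rw [smul_mul_assoc, mul_smul_comm, hy]
  | zero => simp
  | add x z _ _ hx hz => rw [add_mul, mul_add, hx, hz]
  | smul c x _ hx => rw [smul_mul_assoc, mul_smul_comm, hx]

private lemma eq_or53 (H : IsHS m Q S P) (hSA : SelfAdj Q P) {e f : Matrix n n ℂ} (he : IsBlock P e)
    (hf : IsBlock P f) : e = f ∨ e * f = 0 := by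
  obtain ⟨c, hc⟩ := he.min f hf.mem
  obtain ⟨d, hd⟩ := hf.min e he.mem
  have hcm := comm53 H hSA he.mem hf.mem
  rcases eq_or_ne c 0 with h0 | h0
  · right
    rw [hcm, hc, h0, zero_smul]
  · left
    have h1 : c • (c • e) = c • e := by
      calc c • (c • e) = (f * e) * (f * e) := by rw [hc, smul_mul_smul_comm, he.idem, smul_smul]
        _ = f * (e * f) * e := by simp only [mul_assoc]
        _ = f * (f * e) * e := by rw [hcm]
        _ = (f * f) * (e * e) := by simp only [mul_assoc]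
        _ = c • e := by rw [he.idem, hf.idem, hc]
    have h2 : c • e = e := by
      have := congrArg (fun X => c⁻¹ • X) h1
      simpa only [smul_smul, inv_mul_cancel_left₀ h0, inv_mul_cancel₀ h0, one_smul] using this
    have h3 : f * e = e := by rw [hc, h2]
    have h4 : d ≠ 0 := by
      rintro rfl
      rw [zero_smul, hcm, h3] at hd
      exact he.ne hd
    have h5 : e = d • f := by rw [← hd, hcm, h3]
    have h6 : d • (d • f) = d • f := by
      calc d • (d • f) = e * e := by rw [h5, smul_mul_smul_comm, hf.idem, smul_smul]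
        _ = d • f := by rw [he.idem, ← h5]
    have h7 : d • f = f := by
      have := congrArg (fun X => d⁻¹ • X) h6
      simpa only [smul_smul, inv_mul_cancel_left₀ h4, inv_mul_cancel₀ h4, one_smul] using this
    rw [h5, h7]

private lemma finite53 (H : IsHS m Q S P) (hSA : SelfAdj Q P) : {e | IsBlock P e}.Finite := by
  have h1 : LinearIndependent ℂ (fun x : {e | IsBlock P e} => (x : Matrix n n ℂ)) := by
    rw [linearIndependent_iff']
    intro s g hg i hi
    have h2 := congrArg (fun X => X * (i : Matrix n n ℂ)) hg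
    simp only [zero_mul, Finset.sum_mul] at h2
    rw [Finset.sum_eq_single i] at h2
    · rw [smul_mul_assoc, i.2.idem] at h2
      exact (smul_eq_zero.1 h2).resolve_right i.2.ne
    · intro j _ hj
      rcases eq_or53 H hSA j.2 i.2 with h3 | h3
      · exact absurd (Subtype.ext h3) hj
      · rw [smul_mul_assoc, h3, smul_zero]
    · intro h
      exact absurd hi h
  exact h1.setFinite

private lemma chi_mul53 {e g g' : Matrix n n ℂ} (hee : e * e = e) (hg' : g' * e = e * g') :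
    g * g' * e + (1 - e) = (g * e + (1 - e)) * (g' * e + (1 - e)) := by
  have h1 : g * e * (g' * e) = g * g' * e := by
    calc g * e * (g' * e) = g * (e * g') * e := by simp only [mul_assoc]
      _ = g * g' * (e * e) := by rw [← hg']; simp only [mul_assoc]
      _ = g * g' * e := by rw [hee]
  have h2 : g * e * (1 - e) = 0 := by rw [mul_sub, mul_one, mul_assoc, hee, sub_self]
  have h3 : (1 - e) * (g' * e) = 0 := by
    rw [hg', ← mul_assoc, sub_mul, one_mul, hee, sub_self, zero_mul]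
  have h4 : (1 - e) * (1 - e) = 1 - e := by
    rw [mul_sub, mul_one, sub_mul, one_mul, hee, sub_self, sub_zero]
  rw [mul_add, add_mul, add_mul, h1, h2, h3, h4, zero_add, add_zero]

private lemma chi_sq53 (hQ : (toC Q).det ≠ 0) {e g : Matrix n n ℂ} (hee : e * e = e) (hadj : eᵀ * toC Q = toC Q * e)
    (hg : g * e = e * g) {z : ℂ} (hz : gᵀ * toC Q * g = z ^ 2 • toC Q) :
    (g * e + (1 - e)).det ^ 2 = (z ^ e.rank) ^ 2 := by
  have hgT : eᵀ * gᵀ = gᵀ * eᵀ := by rw [← Matrix.transpose_mul, ← Matrix.transpose_mul, hg]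
  have h1 : (g * e + (1 - e))ᵀ * toC Q * (g * e + (1 - e)) = toC Q * (z ^ 2 • e + (1 - e)) := by
    rw [Matrix.transpose_add, Matrix.transpose_mul, Matrix.transpose_sub, Matrix.transpose_one]
    have a1 : eᵀ * gᵀ * toC Q * (g * e) = z ^ 2 • (toC Q * e) := by
      calc eᵀ * gᵀ * toC Q * (g * e) = eᵀ * (gᵀ * toC Q * g) * e := by simp only [mul_assoc]
        _ = z ^ 2 • (eᵀ * toC Q * e) := by rw [hz, mul_smul_comm, smul_mul_assoc]
        _ = z ^ 2 • (toC Q * e) := by rw [hadj, mul_assoc, hee]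
    have a2 : eᵀ * gᵀ * toC Q * (1 - e) = 0 := by
      calc eᵀ * gᵀ * toC Q * (1 - e) = gᵀ * (eᵀ * toC Q) * (1 - e) := by rw [hgT]; simp only [mul_assoc]
        _ = gᵀ * toC Q * (e * (1 - e)) := by rw [hadj]; simp only [mul_assoc]
        _ = 0 := by rw [mul_sub, mul_one, hee, sub_self, mul_zero]
    have a0 : (1 - eᵀ) * toC Q = toC Q * (1 - e) := by rw [sub_mul, one_mul, hadj, mul_sub, mul_one]
    have a3 : (1 - eᵀ) * toC Q * (g * e) = 0 := by
      calc (1 - eᵀ) * toC Q * (g * e) = toC Q * ((1 - e) * e * g) := by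
            rw [a0, hg]
            simp only [mul_assoc]
        _ = 0 := by rw [sub_mul, one_mul, hee, sub_self, zero_mul, mul_zero]
    have a4 : (1 - eᵀ) * toC Q * (1 - e) = toC Q * (1 - e) := by
      calc (1 - eᵀ) * toC Q * (1 - e) = toC Q * ((1 - e) * (1 - e)) := by rw [a0, mul_assoc]
        _ = toC Q * (1 - e) := by rw [mul_sub (1 - e), mul_one, sub_mul, one_mul, hee, sub_self, sub_zero]
    rw [add_mul, add_mul, mul_add, mul_add, a1, a2, a3, a4, add_zero, zero_add, mul_add, mul_smul_comm]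
  have h2 := congrArg Matrix.det h1
  rw [Matrix.det_mul, Matrix.det_mul, Matrix.det_transpose, Matrix.det_mul, det_idem53 hee] at h2
  apply mul_right_cancel₀ hQ
  rw [← pow_mul, mul_comm e.rank 2, pow_mul, mul_comm ((z ^ 2) ^ e.rank), ← h2]
  ring

/-- the predicate with signs -/
private def Gd53 (m : ℤ) (Q : Matrix n n ℚ) (P : ℤ → Matrix n n ℂ) (s : Matrix n n ℂ → ℤˣ) (g : Matrix n n ℂ) : Prop :=
  ∃ z : ℂ, z ≠ 0 ∧ (m = 0 → z = 1) ∧ gᵀ * toC Q * g = z ^ 2 • toC Q ∧
    ∀ e, IsBlock P e → (g * e + (1 - e)).det = ((s e : ℤ) : ℂ) * z ^ e.rank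

private lemma gd_mul53 {s s' : Matrix n n ℂ → ℤˣ} {g g' : Matrix n n ℂ}
    (hg' : ∀ x ∈ EC P, g' * x = x * g') (h : Gd53 m Q P s g) (h' : Gd53 m Q P s' g') :
    Gd53 m Q P (s * s') (g * g') := by
  obtain ⟨z, h0, h1, h2, h3⟩ := h
  obtain ⟨w, k0, k1, k2, k3⟩ := h'
  refine ⟨z * w, mul_ne_zero h0 k0, fun hm => by rw [h1 hm, k1 hm, one_mul], ?_, ?_⟩
  · rw [Matrix.transpose_mul]
    calc g'ᵀ * gᵀ * toC Q * (g * g') = g'ᵀ * (gᵀ * toC Q * g) * g' := by simp only [mul_assoc]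
      _ = (z * w) ^ 2 • toC Q := by
        rw [h2, mul_smul_comm, smul_mul_assoc, k2, smul_smul, mul_pow]
  · intro e he
    rw [chi_mul53 he.idem (hg' e he.mem), Matrix.det_mul, h3 e he, k3 e he, Pi.mul_apply, mul_pow]
    push_cast
    ring

private lemma gd_inv53 {s : Matrix n n ℂ → ℤˣ} {g : GL n ℂ}
    (hg : ∀ x ∈ EC P, ((g⁻¹ : GL n ℂ) : Matrix n n ℂ) * x = x * ((g⁻¹ : GL n ℂ) : Matrix n n ℂ))
    (h : Gd53 m Q P s (g : Matrix n n ℂ)) : Gd53 m Q P s ((g⁻¹ : GL n ℂ) : Matrix n n ℂ) := by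
  obtain ⟨z, h0, h1, h2, h3⟩ := h
  have hg1 : (g : Matrix n n ℂ) * ((g⁻¹ : GL n ℂ) : Matrix n n ℂ) = 1 := by
    rw [← Units.val_mul, mul_inv_cancel, Units.val_one]
  have hg2 : ((g⁻¹ : GL n ℂ) : Matrix n n ℂ)ᵀ * (g : Matrix n n ℂ)ᵀ = 1 := by
    rw [← Matrix.transpose_mul, hg1, Matrix.transpose_one]
  refine ⟨z⁻¹, inv_ne_zero h0, fun hm => by rw [h1 hm, inv_one], ?_, ?_⟩
  · have h4 : ((g⁻¹ : GL n ℂ) : Matrix n n ℂ)ᵀ * ((g : Matrix n n ℂ)ᵀ * toC Q * (g : Matrix n n ℂ)) *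
        ((g⁻¹ : GL n ℂ) : Matrix n n ℂ) = toC Q := by
      calc _ = (((g⁻¹ : GL n ℂ) : Matrix n n ℂ)ᵀ * (g : Matrix n n ℂ)ᵀ) * toC Q *
            ((g : Matrix n n ℂ) * ((g⁻¹ : GL n ℂ) : Matrix n n ℂ)) := by simp only [mul_assoc]
        _ = toC Q := by rw [hg1, hg2, one_mul, mul_one]
    rw [h2, mul_smul_comm, smul_mul_assoc] at h4
    have h5 := congrArg (fun X => (z⁻¹) ^ 2 • X) h4
    simp only [smul_smul] at h5
    rw [← mul_pow, inv_mul_cancel₀ h0, one_pow, one_smul] at h5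
    exact h5
  · intro e he
    have h6 : ((g : Matrix n n ℂ) * e + (1 - e)).det * (((g⁻¹ : GL n ℂ) : Matrix n n ℂ) * e + (1 - e)).det = 1 := by
      rw [← Matrix.det_mul, ← chi_mul53 he.idem (hg e he.mem), hg1, one_mul, add_sub_cancel, Matrix.det_one]
    rw [h3 e he] at h6
    have hs : (((s e : ℤ) : ℂ)) * ((s e : ℤ) : ℂ) = 1 := by
      rw [← Int.cast_mul, ← Units.val_mul, Int.units_mul_self, Units.val_one, Int.cast_one]
    have hz : z ^ e.rank ≠ 0 := pow_ne_zero _ h0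
    have h7 : ((s e : ℤ) : ℂ) * z ^ e.rank ≠ 0 := mul_ne_zero (left_ne_zero_of_mul_eq_one hs) hz
    apply mul_left_cancel₀ h7
    rw [h6, inv_pow]
    calc (1 : ℂ) = (((s e : ℤ) : ℂ) * ((s e : ℤ) : ℂ)) * (z ^ e.rank * (z ^ e.rank)⁻¹) := by
          rw [hs, mul_inv_cancel₀ hz, one_mul]
      _ = _ := by ring

private lemma gd_or53 [Nonempty n] (H : IsHS m Q S P) (hSA : SelfAdj Q P) (G : IsGalE m Q P Γ) {g : GL n ℂ}
    (hg : g ∈ Γ) (hcm : ∀ x ∈ EC P, (g : Matrix n n ℂ) * x = x * (g : Matrix n n ℂ)) :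
    ∃ s : Matrix n n ℂ → ℤˣ, Gd53 m Q P s (g : Matrix n n ℂ) := by
  classical
  obtain ⟨z, h1, h2⟩ := G.sim g hg
  have hQ := detQ53 H
  have hz : z ≠ 0 := by
    rintro rfl
    have h3 := congrArg Matrix.det h2
    rw [Matrix.det_mul, Matrix.det_mul, Matrix.det_transpose, Matrix.det_smul, zero_pow two_ne_zero,
      zero_pow Fintype.card_ne_zero, zero_mul] at h3
    have h4 : (g : Matrix n n ℂ).det ≠ 0 := by
      have h5 : (g : Matrix n n ℂ) * ((g⁻¹ : GL n ℂ) : Matrix n n ℂ) = 1 := by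
        rw [← Units.val_mul, mul_inv_cancel, Units.val_one]
      intro h0
      have := congrArg Matrix.det h5
      rw [Matrix.det_mul, h0, zero_mul, Matrix.det_one] at this
      exact zero_ne_one this
    exact (mul_ne_zero (mul_ne_zero h4 hQ) h4) h3
  refine ⟨fun e => if ((g : Matrix n n ℂ) * e + (1 - e)).det = z ^ e.rank then 1 else -1, z, hz, h1, h2, ?_⟩
  intro e he
  have h3 := chi_sq53 hQ he.idem (adj53 hSA he.mem) (hcm e he.mem) h2
  by_cases h4 : ((g : Matrix n n ℂ) * e + (1 - e)).det = z ^ e.rank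
  · beta_reduce
    rw [if_pos h4, h4, Units.val_one, Int.cast_one, one_mul]
  · have h5 := (sq_eq_sq_iff_eq_or_eq_neg.mp h3).resolve_left h4
    beta_reduce
    rw [if_neg h4, h5, Units.val_neg, Units.val_one, Int.cast_neg, Int.cast_one, neg_one_mul]

/-- Block TR-9d: a subgroup of finite index lies in the largest possible group -/
theorem IsGalE.exists_idx (H : IsHS m Q S P) (hSA : SelfAdj Q P) (G : IsGalE m Q P Γ) (C : CentEC P Γ) :
    ∃ Γ', FI Γ' Γ ∧ ∀ g ∈ Γ', InG m Q P (g : Matrix n n ℂ) := by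
  obtain ⟨Γ₁, ⟨hle, hind⟩, hcm⟩ := C.comm
  rcases isEmpty_or_nonempty n with hn | hn
  · refine ⟨Γ₁, ⟨hle, hind⟩, fun g hg => ⟨hcm g hg, 1, fun _ => rfl, Subsingleton.elim _ _, fun e he => ?_⟩⟩
    exact absurd (Subsingleton.elim _ _) he.ne
  have hcmi : ∀ g ∈ Γ₁, ∀ x ∈ EC P, ((g⁻¹ : GL n ℂ) : Matrix n n ℂ) * x = x * ((g⁻¹ : GL n ℂ) : Matrix n n ℂ) :=
    fun g hg => hcm g⁻¹ (Γ₁.inv_mem hg)
  let Γ' : Subgroup (GL n ℂ) :=
    { carrier := {g | g ∈ Γ₁ ∧ Gd53 m Q P 1 (g : Matrix n n ℂ)}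
      one_mem' := by
        refine ⟨Γ₁.one_mem, 1, one_ne_zero, fun _ => rfl, ?_, ?_⟩
        · rw [Units.val_one, Matrix.transpose_one, one_mul, mul_one, one_pow, one_smul]
        · intro e he
          rw [Units.val_one, one_mul, add_sub_cancel, Matrix.det_one, one_pow, Pi.one_apply, Units.val_one,
            Int.cast_one, one_mul]
      mul_mem' := by
        rintro g g' ⟨h1, h2⟩ ⟨h1', h2'⟩
        refine ⟨Γ₁.mul_mem h1 h1', ?_⟩
        have := gd_mul53 (hcm g' h1') h2 h2'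
        rwa [one_mul, ← Units.val_mul] at this
      inv_mem' := by
        rintro g ⟨h1, h2⟩
        exact ⟨Γ₁.inv_mem h1, gd_inv53 (hcmi g h1) h2⟩ }
  have hmem : ∀ g, g ∈ Γ' ↔ g ∈ Γ₁ ∧ Gd53 m Q P 1 (g : Matrix n n ℂ) := fun g => Iff.rfl
  have hfi : Γ'.relIndex Γ₁ ≠ 0 := by
    choose sg hsg using fun g : Γ₁ => gd_or53 H hSA G (hle g.2) (hcm g.1 g.2)
    haveI : Finite {e | IsBlock P e} := (finite53 H hSA).to_subtype
    have hinj : Function.Injective (fun (q : Γ₁ ⧸ Γ'.subgroupOf Γ₁) (e : {e | IsBlock P e}) => sg q.out e.1) := by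
      intro q q' h
      have h1 : ∀ e, IsBlock P e → sg q.out e = sg q'.out e := fun e he => congrFun h ⟨e, he⟩
      rw [← q.out_eq, ← q'.out_eq]
      apply QuotientGroup.eq.2
      rw [Subgroup.mem_subgroupOf, hmem]
      refine ⟨(q.out⁻¹ * q'.out).2, ?_⟩
      have h2 := gd_mul53 (hcm q'.out.1 q'.out.2) (gd_inv53 (hcmi q.out.1 q.out.2) (hsg q.out)) (hsg q'.out)
      obtain ⟨z, h0, k1, k2, k3⟩ := h2
      refine ⟨z, h0, k1, k2, fun e he => ?_⟩
      have k4 := k3 e he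
      rw [Pi.mul_apply, h1 e he, Int.units_mul_self] at k4
      exact k4
    haveI : Finite (Γ₁ ⧸ Γ'.subgroupOf Γ₁) := Finite.of_injective _ hinj
    exact Subgroup.index_ne_zero_of_finite
  refine ⟨Γ', ⟨fun g hg => hle hg.1, Subgroup.relIndex_ne_zero_trans hfi hind⟩, ?_⟩
  rintro g ⟨h1, z, _, h2, h3, h4⟩
  refine ⟨hcm g h1, z, h2, h3, fun e he => ?_⟩
  rw [h4 e he, Pi.one_apply, Units.val_one, Int.cast_one, one_mul]

end MH
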